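import Pool.Agent.Lib.Pe46137N.Final

/-!
Negations are needed for reachability problems in logarithmic space.

`Nested` and `CliqueNested` digraphs contain all digraphs of out-degree at most one, and
reachability on them is decided by a greedy pointer, so by switching networks of polynomial size.
Without negated variables of the arc set `M`, or with at most `k` of them on an accepting walk,
the size is superpolynomial, unconditionally: on nested digraphs the price of a set `M` between
`X × X` and the arcs meeting `X` is `2 ^ Θ((log |X|) ^ 2)`; on clique-nested digraphs the lower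
bound holds for every set `M` that is not covered by few vertices.
-/

namespace Pool.Agent.Lib.Pe46137.Old.NegationInLogspace

open Pool.Agent.Lib.Pe46137 Pool.Agent.Lib.Pe46137N

theorem result : ∃ C : ℝ, 0 < C ∧ ∀ (n : ℕ) (s t : Fin n), s ≠ t →
    (∀ 𝒢 : Set (Set (Fin n × Fin n)), (∀ G, LayeredNested G → G ∈ 𝒢) →
      (∀ G ∈ 𝒢, Reachable G s t → Nested G) → ∀ (M : Set (Fin n × Fin n)) (r k : ℕ),
      (Coverable M r k →
        Real.logb 2 (limitedStates 𝒢 s t M k) ≤ C * (Real.logb 2 n + Real.logb 2 r ^ 2)) ∧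
      (∀ X : Finset (Fin n), (∀ u ∈ X, ∀ v ∈ X, u ≠ v → (u, v) ∈ M) → r * (k + 1) ≤ X.card →
        Real.logb 2 n + Real.logb 2 r ^ 2 ≤ C * Real.logb 2 (limitedStates 𝒢 s t M k))) ∧
    (Real.logb 2 (states {G : Set (Fin n × Fin n) | CliqueNested G} s t) ≤ C * Real.logb 2 n ∧
      ∀ (M : Set (Fin n × Fin n)) (r k : ℕ), ¬ Coverable M r (k * r) →
        ∃ B : Set (Fin n × Fin n), Disjoint B M ∧
          ∀ 𝒢 : Set (Set (Fin n × Fin n)), (∀ G, CliqueNested G → G \ M = B → G ∈ 𝒢) →
          Real.logb 2 (states 𝒢 s t) + Real.logb 2 r ^ 2 ≤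
            C * (1 + Real.logb 2 (limitedStates 𝒢 s t M k))) ∧
    (∀ G : Set (Fin n × Fin n), (∀ u v w, (u, v) ∈ G → (u, w) ∈ G → v = w) →
      Nested G ∧ CliqueNested G) := by
  refine ⟨20000, by norm_num, fun n s t hst => ⟨fun 𝒢 h1 h2 M r k => ?_,
    ⟨poly_clique hst, fun M r k hc => lower_clique hst M r k hc⟩,
    fun G h => nested_of_outdegree_one h⟩⟩
  obtain ⟨hup, hlow⟩ := boundsX hst h1 h2 M r k
  constructor
  · intro hc
    refine le_trans (hup hc) ?_
    have e1 := logb_nonneg_nat n
    have e2 := sq_nonneg (Real.logb 2 (r : ℝ))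
    nlinarith
  · intro X hX hr
    refine le_trans (hlow X hX hr) ?_
    have e1 := logb_nonneg_nat (limitedStates 𝒢 s t M k)
    nlinarith

end Pool.Agent.Lib.Pe46137.Old.NegationInLogspace
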