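import Pool.Agent.Lib.Pe46137.Sym.Final

/-!
Savitch's algorithm is optimal among renaming-invariant switching networks.

Undirected switching networks of polynomial size are non-uniform logarithmic space, and directed
reachability is complete for NLOGSPACE. Here the contacts may be labelled much more generally, by
one arc variable together with an arbitrary decreasing property of the input digraph (for instance
`b is the only out-neighbour of a`), but the network has to be invariant under renaming of the
vertices. Then `n ^ ((1 + o(1)) * log n)` states (logarithm to base two) are necessary and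
sufficient; Savitch's recursive algorithm, which is invariant and uses no negation, attains this.
-/

namespace Pool.Agent.Results.MP_e46137_lc.SymmetricSavitch

open Pool.Agent.Lib.Pe46137 Pool.Agent.Lib.Pe46137.Sym

theorem result (ε : ℝ) (hε : 0 < ε) : ∃ n₀ : ℕ, ∀ n : ℕ, n₀ ≤ n → ∀ s t : Fin n, s ≠ t →
    (∀ (W : Type) [Fintype W] (N : Network (Fin n) W), N.Invariant s t →
      (∀ G : Set (Fin n × Fin n), Acyclic G → (N.Accepts G ↔ Reachable G s t)) →
      (n : ℝ) ^ ((1 - ε) * Real.logb 2 n) ≤ Fintype.card W) ∧
    ∃ (W : Type) (_ : Fintype W) (N : Network (Fin n) W), N.Invariant s t ∧ N.Monotone ∧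
      (∀ G : Set (Fin n × Fin n), N.Accepts G ↔ Reachable G s t) ∧
      (Fintype.card W : ℝ) ≤ (n : ℝ) ^ ((1 + ε) * Real.logb 2 n) := by
  obtain ⟨n₁, h₁⟩ := lower_asymp ε hε
  obtain ⟨n₂, h₂⟩ := upper_asymp ε hε
  refine ⟨max n₁ n₂, fun n hn s t hst => ⟨?_, ?_⟩⟩
  · intro W _ N hN hdec
    exact h₁ n (le_trans (le_max_left _ _) hn) s t hst W N hN hdec
  · exact h₂ n (le_trans (le_max_right _ _) hn) s t hst

end Pool.Agent.Results.MP_e46137_lc.SymmetricSavitch
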